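import Pool.Agent.TH271.FF.MainQ

/-!
# Focal-free binary codes, `r = 3`: a power saving over the upper bound `2 * 2^⌈n/2⌉`

A focal-free family in `{0,1}^n` for `r = 3` (no word lies between two others; equivalently a
set of vertices of the cube that spans no right angle, or a `(2,1)`-separating code) has at most
`C 2^(n/2) / n^(1/8)` members. So the known upper bound `2 * 2^⌈n/2⌉` is not tight, not even up to
a constant factor. For `r ≥ 4` an exponentially better bound is in the starting file `UpperBound`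
of this problem; `r = 3` was the remaining case of the conjecture.
-/

set_option autoImplicit false

open Finset

namespace Pool.Agent.Results.MP_fa373d_co.FocalSaving

/-- The vectors `x j`, `j : Fin r`, form a focal family of size `r` with focus `x j₀`: they are
pairwise distinct and in every coordinate `i` at least `r - 2` of the other `r - 1` vectors agree
with `x j₀`. -/
def IsFocal {r n : ℕ} (x : Fin r → Fin n → Bool) (j₀ : Fin r) : Prop :=
  Function.Injective x ∧
    ∀ i : Fin n, r - 2 ≤ (univ.filter (fun j : Fin r => j ≠ j₀ ∧ x j i = x j₀ i)).card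

/-- `F` is focal-free: no `r` of its members form a focal family (with any of them as focus). -/
def FocalFree (r : ℕ) {n : ℕ} (F : Finset (Fin n → Bool)) : Prop :=
  ∀ x : Fin r → Fin n → Bool, (∀ j, x j ∈ F) → ∀ j₀, ¬ IsFocal x j₀

lemma isFocal_cons {s n : ℕ} (x₀ : Fin n → Bool) (y : Fin s → Fin n → Bool)
    (h : Pool.Agent.TH271.FF.Focal s x₀ y) :
    IsFocal (r := s + 1) (Fin.cons x₀ y : Fin (s + 1) → Fin n → Bool) 0 := by
  obtain ⟨hinj, hne, hmost⟩ := h
  refine ⟨?_, fun i => ?_⟩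
  · rw [Fin.cons_injective_iff]
    refine ⟨?_, hinj⟩
    rintro ⟨j, hj⟩
    exact hne j hj
  · have h1 : (univ.filter (fun j : Fin s => y j i = x₀ i)).map (Fin.succEmb s) ⊆
        univ.filter (fun j : Fin (s + 1) => j ≠ 0 ∧
          (Fin.cons x₀ y : Fin (s + 1) → Fin n → Bool) j i =
            (Fin.cons x₀ y : Fin (s + 1) → Fin n → Bool) 0 i) := by
      intro j hj
      rw [mem_map] at hj
      obtain ⟨j', hj', rfl⟩ := hj
      rw [mem_filter] at hj' ⊢
      refine ⟨mem_univ _, ?_, ?_⟩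
      · simp
      · simpa using hj'.2
    have h2 := card_le_card h1
    rw [card_map] at h2
    have h3 := card_filter_add_card_filter_not (s := (univ : Finset (Fin s)))
      (fun j => y j i = x₀ i)
    rw [card_univ, Fintype.card_fin] at h3
    have h4 := hmost i
    have h5 : (univ.filter (fun j : Fin s => ¬ y j i = x₀ i)).card ≤ 1 := h4
    omega

lemma two_pow_sub (a n : ℕ) :
    (2 : ℝ) ^ (n - n / (a + 2)) ≤ 2 * (2 : ℝ) ^ (((a : ℝ) + 1) * n / (a + 2)) := by
  have h1 : (2 : ℝ) * (2 : ℝ) ^ (((a : ℝ) + 1) * n / (a + 2)) =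
      (2 : ℝ) ^ (1 + ((a : ℝ) + 1) * n / (a + 2)) := by
    rw [Real.rpow_add (by norm_num), Real.rpow_one]
  rw [h1, ← Real.rpow_natCast]
  refine Real.rpow_le_rpow_of_exponent_le (by norm_num) ?_
  have h2 : n / (a + 2) ≤ n := Nat.div_le_self _ _
  rw [Nat.cast_sub h2]
  have h3 : n < (a + 2) * (n / (a + 2) + 1) := by
    have := Nat.lt_mul_div_succ n (show 0 < a + 2 by omega)
    simpa using this
  have h4 : (n : ℝ) < ((a : ℝ) + 2) * (((n / (a + 2) : ℕ) : ℝ) + 1) := by exact_mod_cast h3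
  have h5 : (0 : ℝ) < (a : ℝ) + 2 := by positivity
  rw [← sub_nonneg]
  have h6 : 1 + ((a : ℝ) + 1) * n / (a + 2) - ((n : ℝ) - ((n / (a + 2) : ℕ) : ℝ)) =
      (((a : ℝ) + 2) * (((n / (a + 2) : ℕ) : ℝ) + 1) - n) / (a + 2) := by
    field_simp
    ring
  rw [h6]
  exact div_nonneg (by linarith) h5.le

/-- The argument for general `r` (only the case `r = 3` is used below). -/
theorem general (r : ℕ) (hr : 3 ≤ r) :
    ∃ C : ℝ, 0 < C ∧ ∀ n : ℕ, 1 ≤ n → ∀ F : Finset (Fin n → Bool), FocalFree r F →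
      (F.card : ℝ) ≤ C * (2 : ℝ) ^ (((r : ℝ) - 2) * n / ((r : ℝ) - 1)) /
        (n : ℝ) ^ (1 / (8 * ((r : ℝ) - 2))) := by
  obtain ⟨a, rfl⟩ : ∃ a, r = a + 3 := ⟨r - 3, by omega⟩
  obtain ⟨c, hc⟩ : ∃ c : ℕ, c = 8 * (1 + a * (a + 3)) + 46 := ⟨_, rfl⟩
  obtain ⟨K, hK⟩ : ∃ K : ℕ, K = (2 ^ c + a * (a + 4)) * (a + 2) := ⟨_, rfl⟩
  have hK1 : 1 ≤ K := by
    rw [hK]
    exact Nat.one_le_iff_ne_zero.2 (by positivity)
  have hKr : (1 : ℝ) ≤ K := by exact_mod_cast hK1
  refine ⟨4 * K + 2 ^ K * K, by positivity, fun n hn F hF => ?_⟩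
  have hr1 : ((a + 3 : ℕ) : ℝ) - 2 = a + 1 := by push_cast; ring
  have hr2 : ((a + 3 : ℕ) : ℝ) - 1 = a + 2 := by push_cast; ring
  rw [hr1, hr2]
  obtain ⟨e, he⟩ : ∃ e : ℝ, e = 1 / (8 * ((a : ℝ) + 1)) := ⟨_, rfl⟩
  rw [← he]
  have ha0 : (0 : ℝ) ≤ a := Nat.cast_nonneg a
  have he0 : 0 < e := by rw [he]; positivity
  have he1 : e ≤ 1 := by
    rw [he, div_le_one (by positivity)]
    linarith
  have hn1 : (1 : ℝ) ≤ n := by exact_mod_cast hn
  have hne : (0 : ℝ) < (n : ℝ) ^ e := by positivity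
  obtain ⟨E, hE⟩ : ∃ E : ℝ, E = (2 : ℝ) ^ (((a : ℝ) + 1) * n / (a + 2)) := ⟨_, rfl⟩
  rw [← hE]
  have hE1 : 1 ≤ E := by
    rw [hE]
    exact Real.one_le_rpow (by norm_num) (by positivity)
  rw [le_div_iff₀ hne]
  rcases Nat.lt_or_ge n K with hnK | hnK
  · -- small `n`
    have h1 : F.card ≤ 2 ^ K := by
      calc F.card ≤ Fintype.card (Fin n → Bool) := card_le_univ F
        _ = 2 ^ n := by simp
        _ ≤ 2 ^ K := Nat.pow_le_pow_right (by norm_num) hnK.le
    have h1r : (F.card : ℝ) ≤ 2 ^ K := by exact_mod_cast h1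
    have h2 : (n : ℝ) ^ e ≤ K := by
      calc (n : ℝ) ^ e ≤ (n : ℝ) ^ (1 : ℝ) := Real.rpow_le_rpow_of_exponent_le hn1 he1
        _ = n := Real.rpow_one _
        _ ≤ K := by exact_mod_cast hnK.le
    calc (F.card : ℝ) * (n : ℝ) ^ e ≤ 2 ^ K * K :=
          mul_le_mul h1r h2 hne.le (by positivity)
      _ ≤ (4 * K + 2 ^ K * K) * 1 := by
          have : (0 : ℝ) ≤ 4 * K := by positivity
          linarith
      _ ≤ (4 * K + 2 ^ K * K) * E := mul_le_mul_of_nonneg_left hE1 (by positivity)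
  · -- large `n`
    obtain ⟨B, hB⟩ : ∃ B : ℕ, B = 2 ^ (8 * (a + 1)) := ⟨_, rfl⟩
    have hB1 : 1 < B := by
      rw [hB]
      exact Nat.one_lt_two_pow (by omega)
    obtain ⟨f, hf⟩ : ∃ f : ℕ, f = Nat.log B (n / K) := ⟨_, rfl⟩
    have hq0 : n / K ≠ 0 := (Nat.div_pos hnK hK1).ne'
    have h1 : B ^ f ≤ n / K := by
      rw [hf]
      exact Nat.pow_log_le_self B hq0
    have h2 : n / K < B ^ (f + 1) := by
      rw [hf]
      exact Nat.lt_pow_succ_log_self hB1 _
    have h3 : K * B ^ f ≤ n := by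
      calc K * B ^ f ≤ K * (n / K) := Nat.mul_le_mul_left _ h1
        _ ≤ n := Nat.mul_div_le n K
    have h4 : n < B ^ (f + 1) * K := (Nat.div_lt_iff_lt_mul hK1).1 h2
    have hcond : (2 ^ (8 * (f + 1 + a * (f + 1 + (a + 2))) + 46) + a * (f + 1 + (a + 2))) *
        (a + 2) ≤ n := by
      refine le_trans ?_ h3
      have e1 : 2 ^ (8 * (f + 1 + a * (f + 1 + (a + 2))) + 46) = 2 ^ c * B ^ f := by
        rw [hB, ← pow_mul, ← pow_add, hc]
        congr 1
        ring
      have e2 : f + 1 + (a + 2) ≤ (a + 4) * B ^ f := by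
        have h5 : f < 2 ^ f := Nat.lt_two_pow_self
        have h6 : 2 ^ f ≤ B ^ f := Nat.pow_le_pow_left hB1 f
        have h7 : 1 ≤ B ^ f := Nat.one_le_pow _ _ (by omega)
        have h8 : (a + 4) * B ^ f = B ^ f + (a + 3) * B ^ f := by ring
        have h9 : (a + 3) * 1 ≤ (a + 3) * B ^ f := Nat.mul_le_mul_left _ h7
        omega
      calc (2 ^ (8 * (f + 1 + a * (f + 1 + (a + 2))) + 46) + a * (f + 1 + (a + 2))) * (a + 2)
          ≤ (2 ^ c * B ^ f + a * ((a + 4) * B ^ f)) * (a + 2) := by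
            rw [e1]
            exact Nat.mul_le_mul_right _ (Nat.add_le_add_left (Nat.mul_le_mul_left _ e2) _)
        _ = K * B ^ f := by rw [hK]; ring
    have hmain := Pool.Agent.TH271.FF.main_quant a f n hcond F (by
      intro x₀ hx₀ y hy hfoc
      exact hF (Fin.cons x₀ y : Fin (a + 2 + 1) → Fin n → Bool)
        (fun j => by
          refine Fin.cases ?_ (fun j' => ?_) j
          · simpa using hx₀
          · simpa using hy j') 0 (isFocal_cons x₀ y hfoc))
    have hmain' : (2 : ℝ) ^ f * F.card ≤ 2 ^ (n - n / (a + 2)) := by exact_mod_cast hmain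
    have h5 : (2 : ℝ) ^ f * F.card ≤ 2 * E := by
      rw [hE]
      exact hmain'.trans (two_pow_sub a n)
    have h6 : (n : ℝ) ^ e ≤ 2 ^ (f + 1) * K := by
      have h7 : (n : ℝ) ≤ (B : ℝ) ^ (f + 1) * K := by exact_mod_cast h4.le
      calc (n : ℝ) ^ e ≤ ((B : ℝ) ^ (f + 1) * K) ^ e :=
            Real.rpow_le_rpow (by positivity) h7 he0.le
        _ = ((B : ℝ) ^ (f + 1)) ^ e * (K : ℝ) ^ e :=
            Real.mul_rpow (by positivity) (by positivity)
        _ ≤ 2 ^ (f + 1) * K := by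
            refine mul_le_mul (le_of_eq ?_) ?_ (by positivity) (by positivity)
            · rw [hB]
              push_cast
              rw [← pow_mul, ← Real.rpow_natCast, ← Real.rpow_mul (by norm_num),
                ← Real.rpow_natCast]
              congr 1
              rw [he]
              push_cast
              field_simp
            · calc (K : ℝ) ^ e ≤ (K : ℝ) ^ (1 : ℝ) := Real.rpow_le_rpow_of_exponent_le hKr he1
                _ = K := Real.rpow_one _
    calc (F.card : ℝ) * (n : ℝ) ^ e ≤ F.card * (2 ^ (f + 1) * K) :=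
          mul_le_mul_of_nonneg_left h6 (by positivity)
      _ = 2 * K * ((2 : ℝ) ^ f * F.card) := by rw [pow_succ]; ring
      _ ≤ 2 * K * (2 * E) := mul_le_mul_of_nonneg_left h5 (by positivity)
      _ ≤ (4 * K + 2 ^ K * K) * E := by
          have : (0 : ℝ) ≤ 2 ^ K * K * E := by positivity
          nlinarith

/-- **Theorem.** There is a constant `C` such that for all `n ≥ 1` every family `F ⊆ {0,1}^n`
that is focal-free for `r = 3` has at most `C 2^(n/2) / n^(1/8)` members. -/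
theorem result :
    ∃ C : ℝ, 0 < C ∧ ∀ n : ℕ, 1 ≤ n → ∀ F : Finset (Fin n → Bool), FocalFree 3 F →
      (F.card : ℝ) ≤ C * (2 : ℝ) ^ ((n : ℝ) / 2) / (n : ℝ) ^ ((1 : ℝ) / 8) := by
  obtain ⟨C, hC, h⟩ := general 3 le_rfl
  refine ⟨C, hC, fun n hn F hF => ?_⟩
  have h1 := h n hn F hF
  have e1 : (((3 : ℕ) : ℝ) - 2) * n / (((3 : ℕ) : ℝ) - 1) = (n : ℝ) / 2 := by
    push_cast
    ring
  have e2 : 1 / (8 * (((3 : ℕ) : ℝ) - 2)) = (1 : ℝ) / 8 := by
    push_cast
    norm_num
  rwa [e1, e2] at h1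

end Pool.Agent.Results.MP_fa373d_co.FocalSaving
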